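import Pool.Agent.Helper5.EA.Final1
import Pool.Agent.Helper5.EA.Final2

/-!
# MP_b6b996_nt: the random model, exact maximum and large deviations

Let `ε p` (`p` prime) be independent random signs, `1` or `-1` with probability `1/2`, and
`f(n) = μ(n)^2 ∏_{p ∣ n} ε p` (the random model of the Moebius function, for which all signs are `-1`). Almost
surely `max_x |∑_{n ≤ N} f(n) e(n x)|` is asymptotically `(√6/π) √(N log N)`, and the normalised sums satisfy a large
deviation principle in `x`, with the rate `(π²/6) |z|²` on the disc of radius `√6/π`, on every interval.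
-/

set_option autoImplicit false

namespace Pool.Agent.Helper51.EA.Keep.LargeDeviations

open Finset MeasureTheory ProbabilityTheory Filter Topology

/-- The function `μ(n)^2 ∏_{p ∣ n} s(p)` attached to the signs `s(p)` of the primes. -/
noncomputable def signed (s : Nat.Primes → ℝ) (n : ℕ) : ℝ :=
  if Squarefree n then ∏ p ∈ n.primeFactors.attach, s ⟨p, Nat.prime_of_mem_primeFactors p.2⟩ else 0

/-- The exponential sum `∑ f(n) e^{2 π i n x}` over `1 ≤ n ≤ N`. -/
noncomputable def F (f : ℕ → ℝ) (N : ℕ) (x : ℝ) : ℂ :=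
  ∑ n ∈ Icc 1 N, (f n : ℂ) * Complex.exp (2 * Real.pi * Complex.I * n * x)

/-- The normalised sum `F_N(x) / √(N log N)`. -/
noncomputable def G (f : ℕ → ℝ) (N : ℕ) (x : ℝ) : ℂ := F f N x / (Real.sqrt (N * Real.log N) : ℝ)

theorem result {Ω : Type*} [MeasurableSpace Ω] (P : Measure Ω) [IsProbabilityMeasure P]
    (ε : Nat.Primes → Ω → ℝ) (_ : ∀ p, Measurable (ε p)) (_ : iIndepFun ε P)
    (_ : ∀ p, P {ω | ε p ω = 1} = 1 / 2) (_ : ∀ p, P {ω | ε p ω = -1} = 1 / 2) :
    ∀ᵐ ω ∂P,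
      Tendsto (fun N : ℕ => (⨆ x : ℝ, ‖F (signed fun p => ε p ω) N x‖) / Real.sqrt (N * Real.log N)) atTop
        (𝓝 (Real.sqrt 6 / Real.pi)) ∧
      ∀ a b : ℝ, 0 ≤ a → a < b → b ≤ 1 → ∀ O : Set ℂ, IsOpen O →
        ((∃ z ∈ O, ‖z‖ < Real.sqrt 6 / Real.pi) → Tendsto (fun N : ℕ =>
          Real.log (volume {x : ℝ | x ∈ Set.Ioo a b ∧ G (signed fun p => ε p ω) N x ∈ O}).toReal / Real.log N) atTop
          (𝓝 (-(Real.pi ^ 2 / 6) * Metric.infDist 0 O ^ 2))) ∧
        (Real.sqrt 6 / Real.pi < Metric.infDist 0 O →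
          ∀ᶠ N : ℕ in atTop, ∀ x : ℝ, G (signed fun p => ε p ω) N x ∉ O) := by
  rename_i hm hi h1 h2
  filter_upwards [Pool.Agent.Helper51.EA.exact_as P ε hm hi h2 h1,
    Pool.Agent.Helper51.EA.ldp_as5 P ε hm hi h2 h1] with ω k1 k2
  have e2 : ∀ n : ℕ, signed (fun p => ε p ω) n =
      Pool.Agent.Helper5.RM.rs (Pool.Agent.Helper5.RM.ext ε) ω n := by
    intro n
    unfold signed Pool.Agent.Helper5.RM.rs
    split_ifs with hn
    · rw [← Finset.prod_attach n.primeFactors (fun p => Pool.Agent.Helper5.RM.ext ε p ω)]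
      refine Finset.prod_congr rfl fun p _ => ?_
      unfold Pool.Agent.Helper5.RM.ext
      rw [dif_pos (Nat.prime_of_mem_primeFactors p.2)]
    · rfl
  have e1 : ∀ (N : ℕ) (x : ℝ), F (signed fun p => ε p ω) N x =
      ∑ n ∈ Icc 1 N, (Pool.Agent.Helper5.RM.rs (Pool.Agent.Helper5.RM.ext ε) ω n : ℂ) *
        Pool.Agent.Helper5.RM.e (n * x) := by
    intro N x
    unfold F Pool.Agent.Helper5.RM.e
    refine Finset.sum_congr rfl fun n _ => ?_
    rw [e2]
    congr 2
    push_cast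
    ring
  have e3 : ∀ (N : ℕ) (x : ℝ), G (signed fun p => ε p ω) N x =
      Pool.Agent.Helper11.EA.nrm (fun N x => ∑ n ∈ Icc 1 N,
        (Pool.Agent.Helper5.RM.rs (Pool.Agent.Helper5.RM.ext ε) ω n : ℂ) * Pool.Agent.Helper5.RM.e (n * x)) N x := by
    intro N x
    unfold G Pool.Agent.Helper11.EA.nrm
    rw [e1]
  refine ⟨?_, ?_⟩
  · simp only [e1]
    exact k1
  · intro a b ha hab hb O hO
    simp only [e3]
    exact k2 a b ha hab hb O hO

end Pool.Agent.Helper51.EA.Keep.LargeDeviations
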